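import Mathlib
import Pool.Agent.H86.CMLib.H204R3.CM.Defs

/-!
# Flipped pairs of embeddings, and the span of the products of Hodge classes of degree two
-/

namespace Pool.Agent.H194R3.CM

open NumberField Pool.Agent.H204R3.CM

/-- The complex conjugate of an embedding of a member of a family of fields. -/
def bar {ι : Type*} {E : ι → Type*} [∀ i, Field (E i)] (x : Σ i, (E i →+* ℂ)) :
    Σ i, (E i →+* ℂ) :=
  ⟨x.1, ComplexEmbedding.conjugate x.2⟩

/-- The composition of an embedding of a member of a family of fields with an endomorphism of the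
field of complex numbers. -/
def move {ι : Type*} {E : ι → Type*} [∀ i, Field (E i)] (τ : ℂ →+* ℂ) (x : Σ i, (E i →+* ℂ)) :
    Σ i, (E i →+* ℂ) :=
  ⟨x.1, τ.comp x.2⟩

/-- The pair `(x, y)` of embeddings is flipped: some endomorphism of the field of complex numbers
moves it to `(x, bar y)`, to `(bar x, y)` or to `(y, bar x)`. -/
def Flipped {ι : Type*} {E : ι → Type*} [∀ i, Field (E i)] (x y : Σ i, (E i →+* ℂ)) : Prop :=
  ∃ τ : ℂ →+* ℂ, (move τ x = x ∧ move τ y = bar y) ∨ (move τ x = bar x ∧ move τ y = y) ∨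
    (move τ x = y ∧ move τ y = bar x)

/-- The automorphisms of the complex numbers (it is the same to use endomorphisms) act transitively
on the unordered pairs of different embeddings of the field `F`. -/
def PairTransitive (F : Type*) [Field F] : Prop :=
  ∀ φ₁ φ₂ ψ₁ ψ₂ : F →+* ℂ, φ₁ ≠ φ₂ → ψ₁ ≠ ψ₂ → ∃ τ : ℂ →+* ℂ,
    (τ.comp φ₁ = ψ₁ ∧ τ.comp φ₂ = ψ₂) ∨ (τ.comp φ₁ = ψ₂ ∧ τ.comp φ₂ = ψ₁)

/-- The automorphisms of the complex numbers (it is the same to use endomorphisms) act transitively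
on the unordered triples of different embeddings of the field `F`. -/
def TripleTransitive (F : Type*) [Field F] : Prop :=
  ∀ φ ψ : Fin 3 → (F →+* ℂ), Function.Injective φ → Function.Injective ψ →
    ∃ (τ : ℂ →+* ℂ) (π : Equiv.Perm (Fin 3)), ∀ k, τ.comp (φ k) = ψ (π k)

/-- The CM type `Φ` is of Weil type: there is a CM type `Ψ` which is mapped by all automorphisms
(endomorphisms) of the complex numbers to itself or to its complement (that is, `Ψ` is induced from
an imaginary quadratic subfield), and one half of the elements of `Φ` belong to `Ψ`. -/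
def WeilType {E : Type*} [Field E] (Φ : Set (E →+* ℂ)) : Prop :=
  ∃ Ψ : Set (E →+* ℂ), IsCMType Ψ ∧
    (∀ τ : ℂ →+* ℂ, (∀ φ, τ.comp φ ∈ Ψ ↔ φ ∈ Ψ) ∨ (∀ φ, τ.comp φ ∈ Ψ ↔ φ ∉ Ψ)) ∧
    (Φ ∩ Ψ).ncard = (Φ \ Ψ).ncard

/-- The span of the wedge products `B 0 ∧ ... ∧ B (m - 1)` of rational Hodge classes of degree two
on a complex torus with rational homology `W`, tangent space `T` and inclusion `per : W → T`. -/
def divisorial {W T : Type*} [AddCommGroup W] [Module ℚ W] [AddCommGroup T] [Module ℂ T]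
    (per : W →+ T) (m : ℕ) : Submodule ℚ (W [⋀^Fin m × Fin 2]→ₗ[ℚ] ℚ) :=
  Submodule.span ℚ {g | ∃ B : Fin m → W [⋀^Fin 2]→ₗ[ℚ] ℚ, (∀ l, IsHodge per (B l)) ∧
    ∀ v, g v = ∑ σ : Equiv.Perm (Fin m × Fin 2), (Equiv.Perm.sign σ : ℤ) *
      ∏ l, B l ![v (σ (l, 0)), v (σ (l, 1))]}

end Pool.Agent.H194R3.CM
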