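import Mathlib
import Pool.Agent.H86.CMLib.H204R3.CM.Nondeg
import Pool.Agent.H86.CMLib.H194R3.CM.Defs

/-!
# The averaged correlation matrix of a family of CM types

If the off-diagonal correlations vanish, because the Galois group contains elements which flip one
embedding of a pair and fix the other one, the family is nondegenerate, whatever the CM types are.
-/

set_option linter.unusedSectionVars false
set_option linter.unusedVariables false

namespace Pool.Agent.H194R3.CM

open NumberField Module Equiv Pool.Agent.H204R3.CM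

/-- The group-theoretic core: `G` acts on the finite set `X` compatibly with the involution `inv`
without fixed points; `u` is a vector `± 1`, antisymmetric; every pair `x, y` with `y ≠ x, inv x` is
flipped: some group element fixes one of them and moves the other one to its image under
`inv`, or moves `x` to `y` and `y` to `inv x`. Then an antisymmetric vector orthogonal to all
translates of `u` is zero. -/
theorem core_flip {X : Type*} [Fintype X] {G : Type*} [Group G] [Fintype G] [MulAction G X]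
    (inv : X → X) (hinv : ∀ x, inv (inv x) = x) (hne : ∀ x, inv x ≠ x)
    (hG : ∀ (g : G) (x : X), g • inv x = inv (g • x))
    (u : X → ℤ) (hu : ∀ x, u x = 1 ∨ u x = -1) (hua : ∀ x, u (inv x) = -u x)
    (hflip : ∀ x y, y ≠ x → y ≠ inv x →
      ∃ g : G, (g • x = x ∧ g • y = inv y) ∨ (g • x = inv x ∧ g • y = y) ∨
        (g • x = y ∧ g • y = inv x))
    (c : X → ℤ) (hc : ∀ x, c (inv x) = -c x)
    (hrel : ∀ g : G, ∑ x, c x * u (g • x) = 0) :
    ∀ x, c x = 0 := by
  classical
  let A : X → X → ℤ := fun x y => ∑ g : G, u (g • x) * u (g • y)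
  have hAsymm : ∀ x y, A x y = A y x := by
    intro x y
    exact Finset.sum_congr rfl fun g _ => mul_comm _ _
  have hAinv : ∀ (h : G) x y, A (h • x) (h • y) = A x y := by
    intro h x y
    simp only [A, ← mul_smul]
    exact Fintype.sum_equiv (Equiv.mulRight h) _ _ fun g => rfl
  have hA1 : ∀ x y, A (inv x) y = -A x y := by
    intro x y
    simp only [A, hG, hua, neg_mul, Finset.sum_neg_distrib]
  have hA2 : ∀ x y, A x (inv y) = -A x y := by
    intro x y
    simp only [A, hG, hua, mul_neg, Finset.sum_neg_distrib]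
  have hA0 : ∀ x y, y ≠ x → y ≠ inv x → A x y = 0 := by
    intro x y h1 h2
    obtain ⟨g, ⟨hg1, hg2⟩ | ⟨hg1, hg2⟩ | ⟨hg1, hg2⟩⟩ := hflip x y h1 h2
    · have h3 := hAinv g x y
      rw [hg1, hg2, hA2] at h3
      omega
    · have h3 := hAinv g x y
      rw [hg1, hg2, hA1] at h3
      omega
    · have h3 := hAinv g x y
      rw [hg1, hg2, hA2, hAsymm] at h3
      omega
  have hAxx : ∀ x, 0 < A x x := by
    intro x
    refine Finset.sum_pos (fun g _ => ?_) Finset.univ_nonempty
    rcases hu (g • x) with h | h <;> rw [h] <;> norm_num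
  intro y
  have h1 : ∑ x, c x * A x y = 0 := by
    simp only [A, Finset.mul_sum]
    rw [Finset.sum_comm]
    refine Finset.sum_eq_zero fun g _ => ?_
    have h2 : ∑ x, c x * (u (g • x) * u (g • y)) = (∑ x, c x * u (g • x)) * u (g • y) := by
      rw [Finset.sum_mul]
      exact Finset.sum_congr rfl fun x _ => by ring
    rw [h2, hrel g, zero_mul]
  have h2 : ∑ x, c x * A x y = c y * A y y + c (inv y) * A (inv y) y := by
    rw [← Finset.sum_pair (hne y).symm (f := fun x => c x * A x y)]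
    symm
    refine Finset.sum_subset (Finset.subset_univ _) fun x _ hx => ?_
    simp only [Finset.mem_insert, Finset.mem_singleton, not_or] at hx
    rw [hA0 x y (fun h => hx.1 h.symm) (fun h => hx.2 (by rw [h, hinv])), mul_zero]
  rw [h1, hc, hA1] at h2
  have h3 : c y * A y y = 0 := by linarith
  rcases mul_eq_zero.1 h3 with h | h
  · exact h
  · exact absurd h (hAxx y).ne'

/-- An automorphism of the complex numbers restricts to the Galois field `L`. -/
theorem exists_restrict {L : Type*} [Field L] [NumberField L] [IsGalois ℚ L] (j : L →+* ℂ)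
    (τ : ℂ →+* ℂ) : ∃ σ : L ≃ₐ[ℚ] L, ∀ x, j (σ x) = τ (j x) := by
  classical
  have hinj : Function.Injective (fun σ : L ≃ₐ[ℚ] L => j.comp (σ : L →+* L)) := by
    intro σ σ' h
    ext x
    exact j.injective (RingHom.congr_fun h x)
  have hbij : Function.Bijective (fun σ : L ≃ₐ[ℚ] L => j.comp (σ : L →+* L)) := by
    rw [Fintype.bijective_iff_injective_and_card]
    exact ⟨hinj, by rw [Embeddings.card, ← Nat.card_eq_fintype_card, IsGalois.card_aut_eq_finrank]⟩
  obtain ⟨σ, hσ⟩ := hbij.2 (τ.comp j)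
  exact ⟨σ, fun x => RingHom.congr_fun hσ x⟩

/-- The restriction acts on the embeddings into `L` as the automorphism on the embeddings into the
complex numbers. -/
theorem comp_smul_of_restrict {L : Type*} [Field L] [CharZero L] {E : Type*} [Field E]
    (j : L →+* ℂ) (τ : ℂ →+* ℂ) (σ : L ≃ₐ[ℚ] L) (hσ : ∀ x, j (σ x) = τ (j x)) (φ : E →+* L) :
    j.comp (σ • φ) = τ.comp (j.comp φ) := by
  ext x
  exact hσ (φ x)

theorem comp_injective {L : Type*} [Field L] {E : Type*} [Field E] (j : L →+* ℂ)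
    {φ ψ : E →+* L} (h : j.comp φ = j.comp ψ) : φ = ψ := by
  ext x
  exact j.injective (RingHom.congr_fun h x)

/-- The family is nondegenerate for all CM types. -/
theorem nondeg_of_flip {ι : Type*} [Fintype ι] {E : ι → Type*} [∀ i, Field (E i)]
    [∀ i, NumberField (E i)] [∀ i, IsCMField (E i)]
    {L : Type*} [Field L] [NumberField L] [IsGalois ℚ L]
    {Φ : ∀ i, Set (E i →+* ℂ)} (hΦ : ∀ i, IsCMType (Φ i)) (j : L →+* ℂ)
    (hflip : ∀ x y : Σ i, (E i →+* ℂ), y ≠ x → y ≠ bar x → Flipped x y) :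
    Nondeg Φ j := by
  classical
  intro c hc hrel i φ
  let X := Σ i, (E i →+* L)
  let inv : X → X := fun x => ⟨x.1, cbar x.2⟩
  let u : X → ℤ := fun x => if j.comp x.2 ∈ Φ x.1 then 1 else -1
  let J : X → Σ i, (E i →+* ℂ) := fun x => ⟨x.1, j.comp x.2⟩
  have hJ : Function.Injective J := by
    rintro ⟨a, φ⟩ ⟨b, ψ⟩ h
    simp only [J, Sigma.mk.injEq] at h
    obtain ⟨rfl, h⟩ := h
    rw [comp_injective j (eq_of_heq h)]
  have hJinv : ∀ x, J (inv x) = bar (J x) := by
    rintro ⟨a, φ⟩
    simp only [J, inv, comp_cbar, bar]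
  refine core_flip (X := X) (G := L ≃ₐ[ℚ] L) inv ?_ ?_ ?_ u ?_ ?_ ?_ (fun x => c x.1 x.2) ?_ ?_ ⟨i, φ⟩
  · rintro ⟨a, φ⟩
    simp only [inv, cbar_cbar]
  · rintro ⟨a, φ⟩ h
    exact cbar_ne φ (eq_of_heq (Sigma.mk.inj_iff.1 h).2)
  · rintro g ⟨a, φ⟩
    rfl
  · intro x
    simp only [u]
    split_ifs
    · exact Or.inl rfl
    · exact Or.inr rfl
  · rintro ⟨a, φ⟩
    simp only [u, inv, comp_cbar]
    by_cases h4 : j.comp φ ∈ Φ a
    · rw [if_pos h4, if_neg ((hΦ a _).1 h4)]
    · rw [if_neg h4, if_pos, neg_neg]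
      by_contra h5
      exact h4 ((hΦ a _).2 h5)
  · intro x y h1 h2
    have h1' : J y ≠ J x := fun h => h1 (hJ h)
    have h2' : J y ≠ bar (J x) := by
      rw [← hJinv]
      exact fun h => h2 (hJ h)
    obtain ⟨τ, hτ⟩ := hflip (J x) (J y) h1' h2'
    obtain ⟨σ, hσ⟩ := exists_restrict j τ
    have hJσ : ∀ z : X, J (σ • z) = move τ (J z) := by
      rintro ⟨a, φ⟩
      exact congrArg (Sigma.mk a) (comp_smul_of_restrict j τ σ hσ φ)
    refine ⟨σ, ?_⟩
    rcases hτ with ⟨h3, h4⟩ | ⟨h3, h4⟩ | ⟨h3, h4⟩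
    · refine Or.inl ⟨hJ ?_, hJ ?_⟩
      · rw [hJσ, h3]
      · rw [hJσ, hJinv, h4]
    · refine Or.inr (Or.inl ⟨hJ ?_, hJ ?_⟩)
      · rw [hJσ, hJinv, h3]
      · rw [hJσ, h4]
    · refine Or.inr (Or.inr ⟨hJ ?_, hJ ?_⟩)
      · rw [hJσ, h3]
      · rw [hJσ, hJinv, h4]
  · rintro ⟨a, φ⟩
    exact hc a φ
  · intro σ
    rw [Fintype.sum_sigma]
    exact hrel σ

end Pool.Agent.H194R3.CM
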